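import Pool.Agent.H91.QS.Comp
import Pool.Agent.H91.QS.Curve

/-!
# The maximal solvable extension of the rationals is ample for plane curves of low degree

Let `K` be the compositum of all finite Galois extensions of `ℚ` with solvable group. Let `f` be a
polynomial over `K` in `X`, `Y` whose total degree is at most `5`, or whose degree in `X` or in `Y` is
at most `4`. If `f` has a zero in `K × K` at which its `Y`-derivative does not vanish, then `f` has
infinitely many zeros in `K × K`.

So `K` has the property required of ample fields for all these plane curves (the question Q1 is the
same statement for all `f`).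

Proof. Every polynomial over `K` of degree between `1` and `4` has a root in `K`: its coefficients
are in a finite solvable Galois extension `F` of `ℚ`, the conjugates over `ℚ` of a root have degree at
most `4` over `F` as well, and the symmetric group on four letters is solvable (`root_mem`). Let the
curve have finitely many points over `K`. If the degree of `f` in `Y` is at most `4`, then
`f(x, Y)` is constant for all but finitely many `x` in `K`, so the `Y`-derivative of `f` is `0`. If the
degree in `X` is at most `4`, then `f(X, y)` is constant for all but finitely many `y`, so the
`X`-derivative is `0` and `f` vanishes on a line. If the total degree is at most `5`, consider the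
lines through the given point `(a, b)` : `f(a + s, b + t s) = s H(s)` with `H` of degree at most `4`
and `H(0) = f_X(a, b) + t f_Y(a, b)`; so `H` is constant for all but finitely many `t`, and `f` is
equal to `f_X(a, b) (X - a) + f_Y(a, b) (Y - b)`.
-/

set_option autoImplicit false

namespace Pool.Agent.Results.MP_90ca13_nt.LowDegree

open Pool.Agent.H91.QS

/-- The field `ℚ_solv` is ample for plane curves of degree at most five, and for plane curves whose
degree in one of the coordinates is at most four. -/
theorem result :
    ∀ K : IntermediateField ℚ (AlgebraicClosure ℚ),
      K = (⨆ (E : IntermediateField ℚ (AlgebraicClosure ℚ))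
            (_ : IsGalois ℚ E ∧ FiniteDimensional ℚ E ∧ IsSolvable (E ≃ₐ[ℚ] E)), E) →
      ∀ f : MvPolynomial (Fin 2) K, ∀ a b : K,
        (f.totalDegree ≤ 5 ∨ f.degreeOf 0 ≤ 4 ∨ f.degreeOf 1 ≤ 4) →
        MvPolynomial.eval ![a, b] f = 0 →
        MvPolynomial.eval ![a, b] (MvPolynomial.pderiv 1 f) ≠ 0 →
        {p : Fin 2 → K | MvPolynomial.eval p f = 0}.Infinite := by
  intro K hK f a b hd h0 hy
  haveI : IsAlgClosure ℚ (AlgebraicClosure ℚ) := by
    constructor
    · infer_instance
    · have h1 : (DivisionRing.toRatAlgebra : Algebra ℚ (AlgebraicClosure ℚ)) =
          AlgebraicClosure.instAlgebra ℚ := Subsingleton.elim _ _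
      rw [h1]
      exact AlgebraicClosure.isAlgebraic ℚ
  have hR : Rts K := by
    intro p h1 h4
    have hK' : K = Ksolv ℚ (AlgebraicClosure ℚ) := hK
    subst hK'
    exact root_mem p h1 h4
  rcases hd with hd | hd | hd
  · exact case_T hR f a b h0 hy hd
  · exact case_X hR f a b h0 (by simpa using hd)
  · exact case_Y hR f a b hy (by simpa using hd)

end Pool.Agent.Results.MP_90ca13_nt.LowDegree
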